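import Mathlib
import Pool.Agent.H342R3.SC8

/-!
A `C^∞` diffeomorphism with a basic set `Λ` such that neither the box dimension of `Λ` nor that of any
of its local unstable slices exists.
-/

set_option autoImplicit false

open Filter
open scoped Topology ContDiff

namespace Pool.Agent.Results.MP_e6529f_an.BasicSetNoBoxDimension

/-- The Euclidean plane. -/
abbrev Plane := WithLp 2 (ℝ × ℝ)

/-- The quotient `ℝ²/(ℤv + ℤw)` with the quotient distance
`dist([a],[b]) = inf_{γ ∈ ℤv+ℤw} |a - b + γ|`; a flat torus when `v, w` are linearly independent. -/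
abbrev Torus (v w : Plane) := Plane ⧸ AddSubgroup.closure {v, w}

/-- The manifold `M = ℝ⁴ × ℝ²/(ℤv + ℤw)` with its flat Riemannian distance
`√(|x - x'|² + dist(θ, θ')²)`. -/
abbrev Mfd (v w : Plane) := WithLp 2 (EuclideanSpace ℝ (Fin 4) × Torus v w)

/-- Its universal cover, the Euclidean space `ℝ⁴ × ℝ² = ℝ⁶`; it is also the tangent space of `M` at
every point, through the flat coordinates. -/
abbrev Cover := WithLp 2 (EuclideanSpace ℝ (Fin 4) × Plane)

/-- The covering map `(x, θ) ↦ (x, θ mod ℤv + ℤw)`, a local isometry. -/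
noncomputable def proj (v w : Plane) (q : Cover) : Mfd v w :=
  WithLp.toLp 2 (q.fst, (q.snd : Torus v w))

/-- `F` is a `C^∞` lift of `f : M → M` to the universal cover. Then `f` is `C^∞`, and its derivative
at `proj q`, in the flat coordinates, is the derivative `D_q F`. -/
def IsSmoothLift {v w : Plane} (F : Cover → Cover) (f : Mfd v w → Mfd v w) : Prop :=
  ContDiff ℝ ∞ F ∧ ∀ q, f (proj v w q) = proj v w (F q)

/-- `f` is a `C^∞` diffeomorphism of `M`: `f` and `f⁻¹` have `C^∞` lifts. -/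
def IsSmoothDiffeo {v w : Plane} (f : Mfd v w ≃ Mfd v w) : Prop :=
  (∃ F, IsSmoothLift F f) ∧ ∃ G, IsSmoothLift G f.symm

/-- The Euclidean norm on `ℝ⁶`. -/
noncomputable def nrm (x : Cover) : ℝ := ‖x‖

/-- The derivative `D_q F : ℝ⁶ → ℝ⁶`. -/
noncomputable def deriv (F : Cover → Cover) (q x : Cover) : Cover := fderiv ℝ F q x

/-- Linear subspaces of `ℝ⁶`. -/
abbrev Subspace := Submodule ℝ Cover

/-- The set of the vectors of a subspace. -/
def vectors (E : Subspace) : Set Cover := E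

/-- `ℝ⁶ = E ⊕ E'`. -/
def IsSplitting (E E' : Subspace) : Prop := IsCompl E E'

/-- `L(E^s) = E^s` and `L(E^u) = E^u`, and `L` contracts `E^s` by `1/2` and expands `E^u` by `2`
(that is, `L⁻¹` contracts `E^u` by `1/2`). -/
def IsHyperbolicMap (L : Cover → Cover) (Es Eu : Subspace) : Prop :=
  L '' vectors Es = vectors Es ∧ L '' vectors Eu = vectors Eu ∧
    (∀ x ∈ vectors Es, nrm (L x) ≤ 1 / 2 * nrm x) ∧ ∀ x ∈ vectors Eu, 2 * nrm x ≤ nrm (L x)

/-- `Λ` is hyperbolic for `f`, in a strong form: there are subspaces `E^s ⊕ E^u = ℝ⁶`, the same at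
all points of `Λ` (so the splitting is continuous), invariant under `Df` on `Λ`, such that on `Λ`
already one step of `Df` contracts `E^s` by `1/2` and expands `E^u` by `2`. -/
def IsHyperbolic {v w : Plane} (f : Mfd v w ≃ Mfd v w) (Λ : Set (Mfd v w)) : Prop :=
  ∃ F, IsSmoothLift F f ∧ ∃ Es Eu : Subspace, IsSplitting Es Eu ∧
    ∀ q, proj v w q ∈ Λ → IsHyperbolicMap (deriv F q) Es Eu

/-- `Λ` is locally maximal: `Λ = ⋂_{n ∈ ℤ} fⁿ(U)` for some open `U ⊇ Λ`, i.e. `Λ` is the set of the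
points whose whole forward and backward orbit lies in `U`. -/
def IsLocallyMaximal {M : Type} [TopologicalSpace M] (f : M ≃ M) (Λ : Set M) : Prop :=
  ∃ U : Set M, IsOpen U ∧ Λ ⊆ U ∧ Λ = {x | ∀ n : ℕ, f^[n] x ∈ U ∧ f.symm^[n] x ∈ U}

/-- `f|_Λ` is topologically transitive: for open `U`, `V` meeting `Λ` some iterate `fⁿ(U ∩ Λ)`
meets `V`. -/
def IsTransitiveOn {M : Type} [TopologicalSpace M] (f : M ≃ M) (Λ : Set M) : Prop :=
  ∀ U V : Set M, IsOpen U → IsOpen V → (U ∩ Λ).Nonempty → (V ∩ Λ).Nonempty →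
    ∃ n : ℕ, (f^[n] '' (U ∩ Λ) ∩ V).Nonempty

/-- `Λ` is a basic set of `f`. -/
def IsBasicSet {v w : Plane} (f : Mfd v w ≃ Mfd v w) (Λ : Set (Mfd v w)) : Prop :=
  Λ.Nonempty ∧ IsCompact Λ ∧ f '' Λ = Λ ∧ IsHyperbolic f Λ ∧ IsLocallyMaximal f Λ ∧
    IsTransitiveOn f Λ

/-- The least number `N_δ(E)` of sets of diameter at most `δ` needed to cover `E`. -/
noncomputable def coveringNumber {M : Type} [PseudoMetricSpace M] (E : Set M) (δ : ℝ) : ℕ :=
  sInf {n : ℕ | ∃ U : Fin n → Set M, (∀ i, ∀ x ∈ U i, ∀ y ∈ U i, dist x y ≤ δ) ∧ E ⊆ ⋃ i, U i}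

/-- The lower box dimension: `liminf_{δ → 0+} log N_δ(E) / (- log δ)`. -/
noncomputable def lowerBoxDim {M : Type} [PseudoMetricSpace M] (E : Set M) : EReal :=
  liminf (fun δ : ℝ => ((Real.log (coveringNumber E δ) / -Real.log δ : ℝ) : EReal)) (𝓝[>] 0)

/-- The upper box dimension: `limsup_{δ → 0+} log N_δ(E) / (- log δ)`. -/
noncomputable def upperBoxDim {M : Type} [PseudoMetricSpace M] (E : Set M) : EReal :=
  limsup (fun δ : ℝ => ((Real.log (coveringNumber E δ) / -Real.log δ : ℝ) : EReal)) (𝓝[>] 0)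

/-- The local unstable manifold of size `ε` of `x`:
`W^u_ε(x) = {y : dist(f⁻ⁿ(y), f⁻ⁿ(x)) ≤ ε for all n ≥ 0}`. -/
def localUnstable {v w : Plane} (f : Mfd v w ≃ Mfd v w) (ε : ℝ) (x : Mfd v w) : Set (Mfd v w) :=
  {y | ∀ n : ℕ, dist (f.symm^[n] y) (f.symm^[n] x) ≤ ε}

/-- There are a flat manifold `M = ℝ⁴ × 𝕋²`, a `C^∞` diffeomorphism `f : M → M` and a basic set `Λ`
of `f` such that the lower box dimension of `Λ` is strictly smaller than its upper box dimension, and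
for every `x ∈ Λ` and every `ε > 0` the lower box dimension of `Λ ∩ W^u_ε(x)` is strictly smaller
than its upper box dimension. -/
theorem result : ∃ (v w : Plane) (f : Mfd v w ≃ Mfd v w) (Λ : Set (Mfd v w)),
    LinearIndependent ℝ ![v, w] ∧ IsSmoothDiffeo f ∧ IsBasicSet f Λ ∧
      lowerBoxDim Λ < upperBoxDim Λ ∧
      ∀ x ∈ Λ, ∀ ε : ℝ, 0 < ε →
        lowerBoxDim (Λ ∩ localUnstable f ε x) < upperBoxDim (Λ ∩ localUnstable f ε x) :=
  ⟨H342R3.SC.v1, H342R3.SC.v2, H342R3.SC.f, H342R3.SC.Lam, H342R3.SC.lin_indep,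
    ⟨⟨H342R3.SC.F, H342R3.SC.F_smooth, H342R3.SC.f_proj⟩,
      ⟨H342R3.SC.G, H342R3.SC.G_smooth, H342R3.SC.fs_proj⟩⟩,
    ⟨H342R3.SC.Lam_ne, H342R3.SC.Lam_compact, H342R3.SC.f_Lam,
      ⟨H342R3.SC.F, ⟨H342R3.SC.F_smooth, H342R3.SC.f_proj⟩, H342R3.SC.Es, H342R3.SC.Eu,
        H342R3.SC.EsEu, fun _ hq => ⟨congrArg SetLike.coe (H342R3.SC.Es_map hq),
          congrArg SetLike.coe (H342R3.SC.Eu_map hq),
          fun x hx => ((H342R3.SC.hyp hq).1 x hx).2, fun x hx => ((H342R3.SC.hyp hq).2 x hx).2⟩⟩,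
      H342R3.SC.locmax, H342R3.SC.transitive⟩,
    H342R3.SC.main_dimT, fun _ hx _ hε => H342R3.SC.slice_dim hx hε⟩

end Pool.Agent.Results.MP_e6529f_an.BasicSetNoBoxDimension
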